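import Pool.Agent.Q88.MK.Stm

/-!
# Project MK, job LOC: the local polynomial
-/

set_option autoImplicit false

open Set MvPolynomial

noncomputable section

namespace Pool.Agent.Q217.MK

open Pool.Agent.Q88.MK

theorem Fs_zero (S : Finset (ℕ × ℕ)) (a : ℕ × ℕ → ℝ) (h0 : (0, 0) ∈ S) :
    Fs S a 0 0 = a (0, 0) := by
  unfold Fs
  rw [Finset.sum_eq_single (0, 0)]
  · simp
  · intro q _ hq
    obtain ⟨i, j⟩ := q
    by_cases hi : i = 0
    · by_cases hj : j = 0
      · exact absurd (by rw [hi, hj]) hq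
      · simp [hj]
    · simp [hi]
  · intro h; exact absurd h0 h

theorem loc (h : S_pol) (h1 : S_mo) (h2 : S_thk) (h3 : S_grw) : S_loc := by
  intro s p ρ sep T m N hs hp hsep hsep1 hm hρ hρ1 hT hTs hprod hN hmN
  obtain ⟨a, ha0, hasum, hax⟩ := h1 s T m sep hsep hsep1 (by exact_mod_cast hm) hT hTs
  set S : Finset (ℕ × ℕ) := insert (1, 0) (insert (0, 0) T) with hS
  have hE : ∀ q ∈ S, E s q ≤ m := by
    intro q hq
    rw [hS, Finset.mem_insert, Finset.mem_insert] at hq
    have hm2 : (2 : ℝ) ≤ m := by exact_mod_cast hm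
    rcases hq with rfl | rfl | hq
    · simp [E]; linarith
    · simp [E]
    · exact (hT q hq).2
  have hle : ∀ q ∈ S, q.1 + q.2 ≤ m := by
    intro q hq
    have h4 := hE q hq
    have h5 : (q.2 : ℝ) ≤ q.2 * s := by
      have : (0 : ℝ) ≤ q.2 := Nat.cast_nonneg _
      nlinarith
    have h6 : ((q.1 + q.2 : ℕ) : ℝ) ≤ m := by
      push_cast
      unfold E at h4
      linarith
    exact_mod_cast h6
  have hle2 : ∀ q ∈ S, q.2 ≤ m ∧ E s q ≤ m := fun q hq => ⟨by have := hle q hq; omega, hE q hq⟩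
  obtain ⟨F, hFd, hFe⟩ := h S a m hle
  have hm2 : (2 : ℝ) ≤ m := by exact_mod_cast hm
  set A : ℝ := ∑ q ∈ S, |a q| with hA
  have hA0 : 0 ≤ A := Finset.sum_nonneg fun q _ => abs_nonneg _
  set c : ℝ := A * (m * 2 ^ m) with hc
  have hc0 : 0 ≤ c := by positivity
  have h00 : ((0, 0) : ℕ × ℕ) ∈ S := by simp [hS]
  refine ⟨F, hFd, ?_, ?_, ?_⟩
  · rw [hFe, Fs_zero S a h00, ha0]
  · intro x y hx hy hyx
    rw [hFe]
    have h4 := h3 s x y S a m hs hx hy hyx hle2
    have h5 : A * 2 ^ m ≤ ρ / 2 * 2 ^ N := by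
      have h6 : A * 2 ^ m ≤ (2 * m / sep) ^ (T.card + 1) * 2 ^ m := by gcongr
      linarith
    have h6 : x ^ m ≤ x ^ (N - 1) := pow_le_pow_right₀ hx (by omega)
    calc |Fs S a x y| ≤ A * 2 ^ m * x ^ m := h4
      _ ≤ ρ / 2 * 2 ^ N * x ^ (N - 1) := by
        gcongr
  · refine ⟨min 1 (ρ / (4 * (c + 1))), lt_min one_pos (by positivity), ?_⟩
    intro κ hκ0 hκ x y hx0 hx1 hy1 hy2
    have hκ1 : κ ≤ 1 := hκ.trans (min_le_left _ _)
    have hcκ : c * κ ≤ ρ / 4 := by
      have h4 : κ ≤ ρ / (4 * (c + 1)) := hκ.trans (min_le_right _ _)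
      rw [le_div_iff₀ (by positivity)] at h4
      nlinarith
    rcases hx0.eq_or_lt with rfl | hx
    · have hs0 : (0 : ℝ) ^ s = 0 := Real.zero_rpow (by linarith)
      have hp0 : (0 : ℝ) ^ p = 0 := Real.zero_rpow (by linarith)
      rw [hs0] at hy1 hy2
      rw [hp0] at hy2
      have hy : y = 0 := by linarith
      subst hy
      rw [hFe, Fs_zero S a h00, ha0]
      refine ⟨by simp, fun h => absurd h (by linarith)⟩
    · have h4 := h2 s p κ x y S a m hs hp hκ0 hκ1 hx hx1 hy1 hy2 hle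
      obtain ⟨hf0, hf1, hf2⟩ := hax x hx hx1
      rw [hFe]
      have hxp : x ^ p ≤ x := by
        calc x ^ p ≤ x ^ (1 : ℝ) := Real.rpow_le_rpow_of_exponent_ge hx hx1 (by linarith)
          _ = x := Real.rpow_one x
      have hxp0 : 0 ≤ x ^ p := Real.rpow_nonneg hx.le p
      have h5 : |Fs S a x y - fs s S a x| ≤ ρ / 4 * x := by
        calc |Fs S a x y - fs s S a x| ≤ A * (m * 2 ^ m) * (κ * x ^ p) := h4
          _ = (c * κ) * x ^ p := by rw [hc]; ring
          _ ≤ ρ / 4 * x := by gcongr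
      rw [abs_le] at h5
      obtain ⟨h5a, h5b⟩ := h5
      have h6 : ρ / 4 * x ≤ x / 4 := by nlinarith
      refine ⟨?_, fun hρx => ?_⟩
      · rw [abs_le]
        constructor <;> linarith
      · have h7 : fs s S a x ≤ ρ / 4 / x := by
          rw [le_div_iff₀ hx]
          linarith
        have h8 : ρ / 4 * x ≤ ρ / 4 / x := by
          rw [le_div_iff₀ hx]
          have : x * x ≤ 1 := by nlinarith
          nlinarith
        have h9 : 1 / 2 * (ρ / x) = ρ / 4 / x + ρ / 4 / x := by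
          field_simp
          ring
        have h10 : 0 ≤ ρ / 4 / x := by positivity
        rw [h9, abs_le]
        constructor <;> linarith

end Pool.Agent.Q217.MK
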