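import Pool.Agent.Q88.MK.Stm

/-!
# Project MK, job OPR: one more exponential variable
-/

set_option autoImplicit false

open Set MvPolynomial

noncomputable section

namespace Pool.Agent.Q217.MK

open Pool.Agent.Q88.MK

theorem nonneg_of_deriv {F F' : ℝ → ℝ} (hF : ∀ x, 0 < x → HasDerivAt F (F' x) x) (h1 : F 1 = 0)
    (hs : ∀ x, 0 < x → x ≤ 1 → F' x ≤ 0) (x : ℝ) (hx : 0 < x) (hx1 : x ≤ 1) : 0 ≤ F x := by
  have h := antitoneOn_of_deriv_nonpos (convex_Icc x 1)
    (fun y hy => (hF y (lt_of_lt_of_le hx hy.1)).continuousAt.continuousWithinAt)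
    (fun y hy => by
      rw [interior_Icc] at hy
      exact (hF y (hx.trans hy.1)).differentiableAt.differentiableWithinAt)
    (fun y hy => by
      rw [interior_Icc] at hy
      rw [(hF y (hx.trans hy.1)).deriv]
      exact hs y (hx.trans hy.1) hy.2.le)
  have := h (left_mem_Icc.2 hx1) (right_mem_Icc.2 hx1) hx1
  rwa [h1] at this

/-- the auxiliary function -/
def phi (s : ℝ) (S : Finset (ℕ × ℕ)) (a : ℕ × ℕ → ℝ) (ν x : ℝ) : ℝ :=
  ∑ q ∈ S, a q * (ν / (ν - E s q)) * (x ^ (E s q - ν) - 1)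

theorem phi_one (s : ℝ) (S : Finset (ℕ × ℕ)) (a : ℕ × ℕ → ℝ) (ν : ℝ) : phi s S a ν 1 = 0 := by
  simp [phi]

theorem phi_deriv (s : ℝ) (S : Finset (ℕ × ℕ)) (a : ℕ × ℕ → ℝ) (ν : ℝ)
    (hS : ∀ q ∈ S, E s q ≠ ν) (x : ℝ) (hx : 0 < x) :
    HasDerivAt (phi s S a ν) (-ν * fs s S a x * x ^ (-ν - 1)) x := by
  have h : HasDerivAt (fun x => ∑ q ∈ S, a q * (ν / (ν - E s q)) * (x ^ (E s q - ν) - 1))
      (∑ q ∈ S, a q * (ν / (ν - E s q)) * ((E s q - ν) * x ^ (E s q - ν - 1))) x := by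
    apply HasDerivAt.fun_sum
    intro q _
    exact ((Real.hasDerivAt_rpow_const (Or.inl hx.ne')).sub_const 1).const_mul _
  have e : -ν * fs s S a x * x ^ (-ν - 1) =
      ∑ q ∈ S, a q * (ν / (ν - E s q)) * ((E s q - ν) * x ^ (E s q - ν - 1)) := by
    unfold fs
    rw [Finset.mul_sum, Finset.sum_mul]
    apply Finset.sum_congr rfl
    intro q hq
    have h1 : x ^ (E s q - ν - 1) = x ^ (E s q) * x ^ (-ν - 1) := by
      rw [← Real.rpow_add hx]; congr 1; ring
    have h2 : ν - E s q ≠ 0 := sub_ne_zero.2 (hS q hq).symm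
    rw [h1]
    field_simp
    ring
  rw [e]
  exact h

theorem fs_insert (s : ℝ) (S : Finset (ℕ × ℕ)) (a : ℕ × ℕ → ℝ) (ν : ℝ) (q₀ : ℕ × ℕ)
    (hq : E s q₀ = ν) (hq0 : q₀ ∉ S) (x : ℝ) (hx : 0 < x) :
    fs s (insert q₀ S) (op s S a ν q₀) x = x ^ ν * phi s S a ν x := by
  unfold fs phi
  rw [Finset.sum_insert hq0, Finset.mul_sum]
  have h1 : op s S a ν q₀ q₀ = -∑ r ∈ S, a r * (ν / (ν - E s r)) := by simp [op]
  rw [h1, hq, neg_mul, Finset.sum_mul, ← Finset.sum_neg_distrib, ← Finset.sum_add_distrib]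
  apply Finset.sum_congr rfl
  intro q hqS
  have hne : q ≠ q₀ := fun h => hq0 (h ▸ hqS)
  have h2 : op s S a ν q₀ q = a q * (ν / (ν - E s q)) := by simp [op, hne]
  have h3 : x ^ (E s q) = x ^ ν * x ^ (E s q - ν) := by
    rw [← Real.rpow_add hx]; congr 1; ring
  rw [h2, h3]
  ring

theorem opr : S_opr := by
  intro s S a ν B q₀ hν hq hq0 hS hg x hx hx1
  have hB : 0 ≤ B := by
    have := hg 1 one_pos le_rfl
    linarith [this.1, this.2.2]
  rw [fs_insert s S a ν q₀ hq hq0 x hx]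
  have hxν : 0 < x ^ ν := Real.rpow_pos_of_pos hx ν
  -- (a)
  have ha : 0 ≤ phi s S a ν x := by
    refine nonneg_of_deriv (fun y hy => phi_deriv s S a ν hS y hy) (phi_one s S a ν) ?_ x hx hx1
    intro y hy hy1
    have h1 := (hg y hy hy1).1
    have h2 : 0 < y ^ (-ν - 1) := Real.rpow_pos_of_pos hy _
    have h3 : 0 ≤ ν * fs s S a y * y ^ (-ν - 1) := by positivity
    linarith
  -- (b)
  have hb : 0 ≤ (x ^ (-ν) - 1) - phi s S a ν x := by
    refine nonneg_of_deriv (F := fun y => (y ^ (-ν) - 1) - phi s S a ν y)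
      (F' := fun y => -ν * y ^ (-ν - 1) - (-ν * fs s S a y * y ^ (-ν - 1)))
      (fun y hy => ((Real.hasDerivAt_rpow_const (Or.inl hy.ne')).sub_const 1).sub
        (phi_deriv s S a ν hS y hy)) ?_ ?_ x hx hx1
    · simp [phi_one]
    · intro y hy hy1
      have h1 := (hg y hy hy1).2.1
      have h2 : 0 < y ^ (-ν - 1) := Real.rpow_pos_of_pos hy _
      have h3 : 0 ≤ ν * (1 - fs s S a y) * y ^ (-ν - 1) := by
        have : 0 ≤ 1 - fs s S a y := by linarith
        positivity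
      linarith
  -- (c)
  have hc : 0 ≤ B * ν / (ν + 1) * (x ^ (-ν - 1) - 1) - phi s S a ν x := by
    refine nonneg_of_deriv (F := fun y => B * ν / (ν + 1) * (y ^ (-ν - 1) - 1) - phi s S a ν y)
      (F' := fun y => B * ν / (ν + 1) * ((-ν - 1) * y ^ (-ν - 1 - 1)) -
        (-ν * fs s S a y * y ^ (-ν - 1)))
      (fun y hy => (((Real.hasDerivAt_rpow_const (Or.inl hy.ne')).sub_const 1).const_mul _).sub
        (phi_deriv s S a ν hS y hy)) ?_ ?_ x hx hx1
    · simp [phi_one]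
    · intro y hy hy1
      have h1 := (hg y hy hy1).2.2
      have h2 : 0 < y ^ (-ν - 1 - 1) := Real.rpow_pos_of_pos hy _
      have h4 : y ^ (-ν - 1) = y * y ^ (-ν - 1 - 1) := by
        nth_rewrite 2 [← Real.rpow_one y]
        rw [← Real.rpow_add hy]; congr 1; ring
      have h3 : 0 ≤ ν * (B - fs s S a y * y) * y ^ (-ν - 1 - 1) := by
        have : 0 ≤ B - fs s S a y * y := by linarith
        positivity
      have h5 : B * ν / (ν + 1) * ((-ν - 1) * y ^ (-ν - 1 - 1)) = -(B * ν) * y ^ (-ν - 1 - 1) := by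
        have : ν + 1 ≠ 0 := by positivity
        field_simp
        ring
      rw [h5, h4]
      nlinarith
  refine ⟨by positivity, ?_, ?_⟩
  · have h1 : x ^ ν * x ^ (-ν) = 1 := by rw [← Real.rpow_add hx]; simp
    have h2 : 0 ≤ x ^ ν * ((x ^ (-ν) - 1) - phi s S a ν x) := by positivity
    nlinarith
  · have h1 : x ^ ν * x ^ (-ν - 1) * x = 1 := by
      nth_rewrite 3 [← Real.rpow_one x]
      rw [← Real.rpow_add hx, ← Real.rpow_add hx]
      have : ν + (-ν - 1) + 1 = 0 := by ring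
      rw [this, Real.rpow_zero]
    have h2 : 0 ≤ (x ^ ν * x) * (B * ν / (ν + 1) * (x ^ (-ν - 1) - 1) - phi s S a ν x) := by
      positivity
    have h3 : 0 ≤ B * ν / (ν + 1) * (x ^ ν * x) := by positivity
    have h4 : (x ^ ν * x) * (B * ν / (ν + 1) * (x ^ (-ν - 1) - 1) - phi s S a ν x) =
        B * ν / (ν + 1) * (x ^ ν * x ^ (-ν - 1) * x) - B * ν / (ν + 1) * (x ^ ν * x) -
          x ^ ν * phi s S a ν x * x := by ring
    rw [h4, h1] at h2
    have h5 : B * (ν / (ν + 1)) = B * ν / (ν + 1) := by ring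
    rw [h5]
    linarith

end Pool.Agent.Q217.MK
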